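import Pool.Agent.Helper65.E3.Defs
import Pool.Agent.Helper65.EV.Main

set_option autoImplicit false

open MeasureTheory Metric Real Set

/-!
# Order three: the analytic inequality
-/

namespace Pool.Agent.Helper65.E3

open Pool.Agent.Helper65.ET (pt pt_re Per BB BB_continuous BB_le BB_nonneg cay cc Dir Adm dc Fr
  adm_a a_nonneg Dir_mul norm_F_le norm_F1_le Fr_anti Fr_nonneg per_Dir ind ind_zero_or_one
  int_lin2 int_const_le dc_mul)
open Pool.Agent.Helper65.EH

variable {F F1 F2 : ℂ → ℂ}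

/-- the analytic parts -/
structure Parts3 : Prop where
  fam : S_FAM3
  flux : S_FLUX3
  cert : S_CERT3
  circ : S_CIRC

section cont

variable {X : Type*} [TopologicalSpace X] {x y : X → ℝ}

lemma cont_GG3 (hP : Parts3) (h : Per F F1 F2) (hx : Continuous x) (hy : Continuous y)
    (hpos : ∀ t, 0 < y t) : Continuous (fun t => GG3 F F1 (x t) (y t)) := by
  obtain ⟨_, _, c3, c4, _⟩ := hP.fam
  have hv := cont_vv (k := 1 / 3) h.c0 hx hy hpos
  have hz := cont_zr (k := 1 / 3) h hx hy hpos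
  exact ((c3.comp hv).mul hz).sub (c4.comp hv)

lemma cont_flux3 (hP : Parts3) (h : Per F F1 F2) (hx : Continuous x) (hy : Continuous y)
    (hpos : ∀ t, 0 < y t) : Continuous (fun t => flux3 F F1 (x t) (y t)) := by
  obtain ⟨c1, c2, _⟩ := hP.fam
  have hv := cont_vv (k := 1 / 3) h.c0 hx hy hpos
  have hq := cont_qq (k := 1 / 3) h hx hy hpos
  exact (hq.mul (c1.comp hv)).sub (continuous_const.mul (c2.comp hv))

end cont

lemma abs_GG3_le (hP : Parts3) (x : ℝ) {y : ℝ} (hy : 0 ≤ y) :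
    |GG3 F F1 x y| ≤ 2 * (vv (1 / 3) F x y + qq (1 / 3) F F1 x y) := by
  obtain ⟨_, _, _, _, b1, b2, _⟩ := hP.fam
  unfold GG3
  have h1 := vv_nonneg (k := 1 / 3) F x hy
  have h2 := qq_nonneg (k := 1 / 3) F F1 x hy
  have h3 : |kap3 (vv (1 / 3) F x y) * zr (1 / 3) F F1 x y| ≤
      1 * ((vv (1 / 3) F x y + qq (1 / 3) F F1 x y) / 2) := by
    rw [abs_mul]
    exact mul_le_mul (b1 _ h1) (abs_zr_le F F1 x hy) (abs_nonneg _) (by norm_num)
  have h4 := b2 _ h1
  calc |kap3 (vv (1 / 3) F x y) * zr (1 / 3) F F1 x y - KK3 (vv (1 / 3) F x y)|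
      ≤ |kap3 (vv (1 / 3) F x y) * zr (1 / 3) F F1 x y| + |KK3 (vv (1 / 3) F x y)| := abs_sub _ _
    _ ≤ _ := by linarith

/-- the certificate at a point of the half plane -/
theorem point_ineq3 (hP : Parts3) (h : Per F F1 F2) (x : ℝ) {y : ℝ} (hy : 0 < y) :
    0 ≤ (vv (1 / 3) F x y - 1) ^ 2 * (vv (1 / 3) F x y + 1 / 50) - 1 / 50 -
      102 / 25 * BB (vv (1 / 3) F x y) + 102 / 25 * cavg (1 / 3) F x y + flux3 F F1 x y := by
  have := hP.cert (vv (1 / 3) F x y) (qq (1 / 3) F F1 x y) (cavg (1 / 3) F x y)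
    (vv_nonneg _ _ hy.le)
    (qq_nonneg _ _ _ hy.le) (cavg_nonneg x y)
    (fun c t hc ht => hP.circ (1 / 3) (by norm_num) le_rfl F F1 F2 h x y hy c t hc ht)
  unfold flux3
  linarith

/-- the total defect at height `y` -/
noncomputable def defect3 (F F1 : ℂ → ℂ) (y : ℝ) : ℝ :=
  -(102 / 25) * (bB (1 / 3) F y - ∫ x in (0 : ℝ)..2 * π, cavg (1 / 3) F x y) +
    ∫ x in (0 : ℝ)..2 * π, flux3 F F1 x y

lemma cont_defect3 (hP : Parts3) (h : Per F F1 F2) :
    Continuous (fun τ : ℝ => defect3 F F1 (exp (-τ))) := by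
  have hy : Continuous (fun τ : ℝ => exp (-τ)) := by fun_prop
  have h1 := cont_bB (k := 1 / 3) h hy (fun _ => exp_pos _)
  have h2 : Continuous (fun τ : ℝ => ∫ x in (0 : ℝ)..2 * π, cavg (1 / 3) F x (exp (-τ))) := by
    apply intervalIntegral.continuous_parametric_intervalIntegral_of_continuous'
    exact cont_cavg h continuous_snd (hy.comp continuous_fst) (fun _ => exp_pos _)
  have h3 : Continuous (fun τ : ℝ => ∫ x in (0 : ℝ)..2 * π, flux3 F F1 x (exp (-τ))) := by
    apply intervalIntegral.continuous_parametric_intervalIntegral_of_continuous'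
    exact cont_flux3 hP h continuous_snd (hy.comp continuous_fst) (fun _ => exp_pos _)
  unfold defect3
  exact (continuous_const.mul (h1.sub h2)).add h3

lemma integral_GG3_le (hP : Parts3) (h : Per F F1 F2) {y Cv Cq : ℝ} (hy : 0 < y)
    (hv : ∫ x in (0 : ℝ)..2 * π, vv (1 / 3) F x y ≤ Cv)
    (hq : ∫ x in (0 : ℝ)..2 * π, qq (1 / 3) F F1 x y ≤ Cq) :
    |∫ x in (0 : ℝ)..2 * π, GG3 F F1 x y| ≤ 2 * (Cv + Cq) := by
  have cv : Continuous (fun x => vv (1 / 3) F x y) :=
    cont_vv h.c0 continuous_id continuous_const fun _ => hy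
  have cq : Continuous (fun x => qq (1 / 3) F F1 x y) :=
    cont_qq h continuous_id continuous_const fun _ => hy
  have h1 : ∀ x, ‖GG3 F F1 x y‖ ≤ 2 * (vv (1 / 3) F x y + qq (1 / 3) F F1 x y) :=
    fun x => abs_GG3_le hP x hy.le
  have h2 := intervalIntegral.norm_integral_le_of_norm_le (f := fun x => GG3 F F1 x y)
    (g := fun x => 2 * (vv (1 / 3) F x y + qq (1 / 3) F F1 x y)) (a := 0) (b := 2 * π)
    (μ := volume)
    (by positivity) (Filter.Eventually.of_forall fun x _ => h1 x)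
    ((continuous_const.mul (cv.add cq)).intervalIntegrable _ _)
  rw [Real.norm_eq_abs] at h2
  refine h2.trans ?_
  rw [intervalIntegral.integral_const_mul, intervalIntegral.integral_add
    (cv.intervalIntegrable _ _) (cq.intervalIntegrable _ _)]
  linarith

theorem integral_defect3_le (hP : Parts3) (h : Per F F1 F2) {Cv Cq : ℝ}
    (hv : ∀ y, 0 < y → y ≤ 9 → ∫ x in (0 : ℝ)..2 * π, vv (1 / 3) F x y ≤ Cv)
    (hq : ∀ y, 0 < y → y ≤ 1 → ∫ x in (0 : ℝ)..2 * π, qq (1 / 3) F F1 x y ≤ Cq) (a b : ℝ)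
    (ha : 0 ≤ a) (hab : a ≤ b) :
    ∫ τ in a..b, defect3 F F1 (exp (-τ)) ≤ 102 / 25 * (log 9 * Cv) + 4 * (Cv + Cq) := by
  have hy : Continuous (fun τ : ℝ => exp (-τ)) := by fun_prop
  have h1 := cont_bB (k := 1 / 3) h hy (fun _ => exp_pos _)
  have h2 : Continuous (fun τ : ℝ => ∫ x in (0 : ℝ)..2 * π, cavg (1 / 3) F x (exp (-τ))) := by
    apply intervalIntegral.continuous_parametric_intervalIntegral_of_continuous'
    exact cont_cavg h continuous_snd (hy.comp continuous_fst) (fun _ => exp_pos _)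
  have h3 : Continuous (fun τ : ℝ => ∫ x in (0 : ℝ)..2 * π, flux3 F F1 x (exp (-τ))) := by
    apply intervalIntegral.continuous_parametric_intervalIntegral_of_continuous'
    exact cont_flux3 hP h continuous_snd (hy.comp continuous_fst) (fun _ => exp_pos _)
  unfold defect3
  rw [int_lin2 _ _ _ h1 h2 h3, hP.flux F F1 F2 h a b]
  have h4 := integral_cavg_le h ha hab hv
  have ea : exp (-a) ≤ 1 := by rw [Real.exp_le_one_iff]; linarith
  have eb : exp (-b) ≤ 1 := by rw [Real.exp_le_one_iff]; linarith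
  have h5 := (abs_le.mp (integral_GG3_le hP h (exp_pos (-a)) (hv _ (exp_pos _) (by linarith))
    (hq _ (exp_pos _) ea))).2
  have h6 := (abs_le.mp (integral_GG3_le hP h (exp_pos (-b)) (hv _ (exp_pos _) (by linarith))
    (hq _ (exp_pos _) eb))).1
  linarith

lemma int_lin4 (f0 f1 f2 f3 f4 : ℝ → ℝ) (h0 : Continuous f0) (h1 : Continuous f1)
    (h2 : Continuous f2) (h3 : Continuous f3) (h4 : Continuous f4) (a b : ℝ) :
    ∫ x in a..b, (99 / 50 * f0 x - 24 / 25 * f1 x + 102 / 25 * f2 x - 102 / 25 * f3 x - f4 x) =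
      99 / 50 * (∫ x in a..b, f0 x) - 24 / 25 * (∫ x in a..b, f1 x) +
        102 / 25 * (∫ x in a..b, f2 x) -
        102 / 25 * (∫ x in a..b, f3 x) - ∫ x in a..b, f4 x := by
  rw [intervalIntegral.integral_sub (by apply Continuous.intervalIntegrable; fun_prop)
      (by apply Continuous.intervalIntegrable; fun_prop),
    intervalIntegral.integral_sub (by apply Continuous.intervalIntegrable; fun_prop)
      (by apply Continuous.intervalIntegrable; fun_prop),
    intervalIntegral.integral_add (by apply Continuous.intervalIntegrable; fun_prop)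
      (by apply Continuous.intervalIntegrable; fun_prop),
    intervalIntegral.integral_sub (by apply Continuous.intervalIntegrable; fun_prop)
      (by apply Continuous.intervalIntegrable; fun_prop),
    intervalIntegral.integral_const_mul, intervalIntegral.integral_const_mul,
    intervalIntegral.integral_const_mul, intervalIntegral.integral_const_mul]

/-- the local inequality at height `y`, away from `x = 0` -/
theorem local_ineq3 (hPt : Parts3) (h : Per F F1 F2) {y d P : ℝ} (hy : 0 < y) (hd : 0 ≤ d)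
    (hd' : d ≤ π) (hP : ∀ x, vv (1 / 3) F x y + qq (1 / 3) F F1 x y ≤ P) :
    99 / 50 * (∫ x in (0 : ℝ)..2 * π, vv (1 / 3) F x y ^ 2) -
      24 / 25 * (∫ x in (0 : ℝ)..2 * π, vv (1 / 3) F x y) -
      defect3 F F1 y - 2 * d * (2 * P ^ 2 + 5 * P) ≤
      ∫ x in d..2 * π - d, vv (1 / 3) F x y ^ 3 := by
  have cv : Continuous (fun x => vv (1 / 3) F x y) :=
    cont_vv h.c0 continuous_id continuous_const fun _ => hy
  have cv2 : Continuous (fun x => vv (1 / 3) F x y ^ 2) := cv.pow 2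
  have cB : Continuous (fun x => BB (vv (1 / 3) F x y)) := BB_continuous.comp cv
  have cc' : Continuous (fun x => cavg (1 / 3) F x y) :=
    cont_cavg h continuous_id continuous_const fun _ => hy
  have cf : Continuous (fun x => flux3 F F1 x y) :=
    cont_flux3 hPt h continuous_id continuous_const fun _ => hy
  set Y : ℝ → ℝ := fun x => 99 / 50 * vv (1 / 3) F x y ^ 2 - 24 / 25 * vv (1 / 3) F x y +
    102 / 25 * BB (vv (1 / 3) F x y) - 102 / 25 * cavg (1 / 3) F x y - flux3 F F1 x y with hY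
  have cY : Continuous Y := by
    rw [hY]
    exact ((((continuous_const.mul cv2).sub (continuous_const.mul cv)).add
      (continuous_const.mul cB)).sub (continuous_const.mul cc')).sub cf
  have h1 : ∫ x in d..2 * π - d, Y x ≤ ∫ x in d..2 * π - d, vv (1 / 3) F x y ^ 3 := by
    apply intervalIntegral.integral_mono_on (by linarith) (cY.intervalIntegrable _ _)
      ((cv.pow 3).intervalIntegrable _ _)
    intro x _
    have h2 := point_ineq3 hPt h x hy
    have h3 : (vv (1 / 3) F x y - 1) ^ 2 * (vv (1 / 3) F x y + 1 / 50) - 1 / 50 =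
        vv (1 / 3) F x y ^ 3 - 99 / 50 * vv (1 / 3) F x y ^ 2 + 24 / 25 * vv (1 / 3) F x y := by
      ring
    rw [h3] at h2
    rw [hY]; simp only [Pi.pow_apply]
    linarith
  have hYP : ∀ x, Y x ≤ 2 * P ^ 2 + 5 * P := by
    intro x
    obtain ⟨_, _, _, _, _, _, b3, b4⟩ := hPt.fam
    have h2 := vv_nonneg (k := 1 / 3) F x hy.le
    have h3 := qq_nonneg (k := 1 / 3) F F1 x hy.le
    have h4 := BB_le h2
    have h5 := cavg_nonneg (k := 1 / 3) (F := F) x y
    have h6 := hP x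
    have h7 : -flux3 F F1 x y ≤ qq (1 / 3) F F1 x y := by
      unfold flux3
      have h8 := b3 _ h2
      have h10 := b4 _ h2
      nlinarith
    have h11 : vv (1 / 3) F x y ≤ P := by linarith
    have h12 : vv (1 / 3) F x y ^ 2 ≤ P ^ 2 := pow_le_pow_left₀ h2 h11 2
    have h13 := sq_nonneg P
    rw [hY]; simp only
    linarith
  have h2 : ∫ x in (0 : ℝ)..2 * π, Y x = 99 / 50 * (∫ x in (0 : ℝ)..2 * π, vv (1 / 3) F x y ^ 2) -
      24 / 25 * (∫ x in (0 : ℝ)..2 * π, vv (1 / 3) F x y) - defect3 F F1 y := by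
    rw [hY, int_lin4 _ _ _ _ _ cv2 cv cB cc' cf]
    unfold defect3 bB
    ring
  have h3 : ∫ x in (0 : ℝ)..2 * π, Y x =
      (∫ x in (0 : ℝ)..d, Y x) + (∫ x in d..2 * π - d, Y x) + ∫ x in (2 * π - d)..2 * π, Y x := by
    rw [intervalIntegral.integral_add_adjacent_intervals (cY.intervalIntegrable _ _)
      (cY.intervalIntegrable _ _),
      intervalIntegral.integral_add_adjacent_intervals (cY.intervalIntegrable _ _)
      (cY.intervalIntegrable _ _)]
  have h4 := int_const_le Y cY 0 d (2 * P ^ 2 + 5 * P) hd hYP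
  have h5 := int_const_le Y cY (2 * π - d) (2 * π) (2 * P ^ 2 + 5 * P) (by linarith) hYP
  linarith

/-- the coefficient `κ`: scaling -/
lemma vv_scale (a : ℕ → ℝ) (c x y : ℝ) :
    vv (1 / 3) (Dir (fun n => c * a n)) x y = c ^ 2 * vv (1 / 3) (Dir a) x y := by
  rw [vv_eq_norm, vv_eq_norm, Dir_mul, norm_mul, Complex.norm_real, Real.norm_eq_abs, mul_pow,
    sq_abs]
  ring

section

variable {a : ℕ → ℝ} (ha : ∀ n, a n = 0 ∨ a n = 1) {C : ℝ} (hPw : S_POW)
  (hC : ∀ n, cp a 3 n ≤ C)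

include ha hPw hC

/-- pointwise bound at height `z ^ 12` -/
lemma vv_add_qq_le3 (hC1 : 1 ≤ C) (c : ℝ) (hc : 0 ≤ c) (x : ℝ) {z : ℝ} (hz : 0 < z)
    (hz1 : z ≤ 1) :
    vv (1 / 3) (Dir (fun n => c * a n)) x (z ^ 12) +
      qq (1 / 3) (Dir (fun n => c * a n)) (Dir (dc (fun n => c * a n))) x (z ^ 12)
      ≤ 200 * C ^ 2 * c ^ 2 / z ^ 4 := by
  set y := z ^ 12 with hy
  have hy0 : 0 < y := by positivity
  have hy1 : y ≤ 1 := pow_le_one₀ hz.le hz1
  have hF := norm_F_le ha c hc x hy0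
  have hF1 := norm_F1_le ha c hc x hy0
  have hmono : Fr a y ≤ Fr a (y / 2) := Fr_anti ha (by positivity) (by linarith)
  have hF0 : 0 ≤ Fr a (y / 2) := Fr_nonneg ha _
  have hp := pw_pos (k := 1 / 3) hy0
  have hff0 := Fr_pow_le ha hPw hC (show 0 < y / 2 by positivity)
  set f := Fr a (y / 2) with hf
  have hff : f ^ 3 ≤ 3 * C / y := by
    refine hff0.trans ?_
    have e : C * ((1 + y / 2) / (y / 2)) = C * (2 + y) / y := by field_simp
    have e2 : C * (2 + y) ≤ 3 * C := by nlinarith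
    rw [e]
    exact div_le_div_of_nonneg_right e2 hy0.le
  have hpp : pw (1 / 3) y ^ 3 = y := by
    have := pw_pow (h := 3) (by norm_num) hy0.le
    norm_num at this
    exact this
  have hmain : pw (1 / 3) y * f ^ 2 ≤ 9 * C ^ 2 / z ^ 4 := by
    have h1 : (pw (1 / 3) y * f ^ 2) ^ 3 ≤ (9 * C ^ 2 / z ^ 4) ^ 3 := by
      rw [mul_pow, hpp]
      calc y * (f ^ 2) ^ 3 = y * (f ^ 3) ^ 2 := by ring
        _ ≤ y * (3 * C / y) ^ 2 := by gcongr
        _ = 9 * C ^ 2 / y := by field_simp; ring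
        _ = 9 * C ^ 2 / (z ^ 4) ^ 3 := by rw [hy]; ring
        _ ≤ (9 * C ^ 2) ^ 3 / (z ^ 4) ^ 3 := by
          gcongr
          exact le_self_pow₀ (by nlinarith) (by norm_num)
        _ = _ := by rw [div_pow]
    exact le_of_pow_le_pow_left₀ (by norm_num) (by positivity) h1
  have hv : vv (1 / 3) (Dir (fun n => c * a n)) x y ≤ pw (1 / 3) y * (c * f) ^ 2 := by
    rw [vv_eq_norm]
    have : c * Fr a y ≤ c * f := by gcongr
    gcongr
    exact hF.trans this
  have hq : qq (1 / 3) (Dir (fun n => c * a n)) (Dir (dc (fun n => c * a n))) x y ≤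
      pw (1 / 3) y * (9 / 2 * (c * f)) ^ 2 := by
    rw [qq_eq_norm]
    have h1 : ‖2 * (y : ℂ) * Dir (dc (fun n => c * a n)) (pt x y) +
        ((1 / 3 : ℝ) : ℂ) * Dir (fun n => c * a n) (pt x y)‖ ≤ 9 / 2 * (c * f) := by
      refine (norm_add_le _ _).trans ?_
      rw [norm_mul, norm_mul, norm_mul, Complex.norm_real, Real.norm_of_nonneg hy0.le,
        Complex.norm_real, Real.norm_of_nonneg (by norm_num : (0 : ℝ) ≤ 1 / 3)]
      simp only [Complex.norm_ofNat]
      have h2 : 2 * y * ‖Dir (dc (fun n => c * a n)) (pt x y)‖ ≤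
          2 * y * (c * (2 / y * f)) := by gcongr
      have h3 : 2 * y * (c * (2 / y * f)) = 4 * (c * f) := by field_simp; ring
      have h4 : c * Fr a y ≤ c * f := by gcongr
      have h5 : (1 / 3 : ℝ) * ‖Dir (fun n => c * a n) (pt x y)‖ ≤ 1 / 3 * (c * f) := by
        have := hF.trans h4
        gcongr
      have h6 : 0 ≤ c * f := by positivity
      linarith
    gcongr
  calc _ ≤ pw (1 / 3) y * (c * f) ^ 2 + pw (1 / 3) y * (9 / 2 * (c * f)) ^ 2 := add_le_add hv hq
    _ = (85 / 4 * c ^ 2) * (pw (1 / 3) y * f ^ 2) := by ring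
    _ ≤ (85 / 4 * c ^ 2) * (9 * C ^ 2 / z ^ 4) := by gcongr
    _ = 765 / 4 * (C ^ 2 * c ^ 2 / z ^ 4) := by ring
    _ ≤ 200 * (C ^ 2 * c ^ 2 / z ^ 4) := by
      gcongr
      norm_num
    _ = _ := by ring

end

end Pool.Agent.Helper65.E3
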