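import Pool.Agent.Helper65.EV.Defs

set_option autoImplicit false

/-!
# Order three: a better threshold (stage 3 of EH)

`g = 1/50`, `η = 11/25`, `v₁ = 19/20`, `b = 102/25`, weight `k = 1/3`.
-/

open MeasureTheory Metric Real Set

namespace Pool.Agent.Helper65.E3

open Pool.Agent.Helper65.ET (pt Per BB)
open Pool.Agent.Helper65.EH (vv qq zr cavg)

/-- `h(v) = -η v (v₁ - v)₊` -/
noncomputable def hh3 (v : ℝ) : ℝ := -(11 / 25) * v * max 0 (19 / 20 - v)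

/-- its primitive -/
noncomputable def HH3 (v : ℝ) : ℝ :=
  if v ≤ 19 / 20 then -(11 / 25) * (19 / 40 * v ^ 2 - v ^ 3 / 3)
  else -(11 / 25) * ((19 / 20) ^ 3 / 6)

/-- `κ(v) = H(v) / v` -/
noncomputable def kap3 (v : ℝ) : ℝ :=
  if v ≤ 19 / 20 then -(11 / 25) * (19 / 40 * v - v ^ 2 / 3)
  else -(11 / 25) * ((19 / 20) ^ 3 / 6) / v

/-- `κ'(v)` -/
noncomputable def kap3' (v : ℝ) : ℝ :=
  if v ≤ 19 / 20 then -(11 / 25) * (19 / 40 - 2 / 3 * v)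
  else (11 / 25) * ((19 / 20) ^ 3 / 6) / v ^ 2

/-- `K(v)`, `K' = κ` -/
noncomputable def KK3 (v : ℝ) : ℝ :=
  if v ≤ 19 / 20 then -(11 / 25) * (19 / 80 * v ^ 2 - v ^ 3 / 9)
  else -(11 / 25) * (5 / 36 * (19 / 20) ^ 3 + (19 / 20) ^ 3 / 6 * log (v / (19 / 20)))

/-- `G = κ(v) Re Z - K(v)` -/
noncomputable def GG3 (F F1 : ℂ → ℂ) (x y : ℝ) : ℝ :=
  kap3 (vv (1 / 3) F x y) * zr (1 / 3) F F1 x y - KK3 (vv (1 / 3) F x y)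

/-- the flux density -/
noncomputable def flux3 (F F1 : ℂ → ℂ) (x y : ℝ) : ℝ :=
  qq (1 / 3) F F1 x y * hh3 (vv (1 / 3) F x y) - 1 / 3 * HH3 (vv (1 / 3) F x y)

/-- properties of the functions (adapt `ET/Flux.lean`) -/
def S_FAM3 : Prop :=
  Continuous hh3 ∧ Continuous HH3 ∧ Continuous kap3 ∧ Continuous KK3 ∧
  (∀ v : ℝ, 0 ≤ v → |kap3 v| ≤ 1) ∧ (∀ v : ℝ, 0 ≤ v → |KK3 v| ≤ v) ∧
  (∀ v : ℝ, 0 ≤ v → HH3 v ≤ 0) ∧ (∀ v : ℝ, 0 ≤ v → -hh3 v ≤ 1)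

/-- flux identity (adapt `Helper73/EH/FLUX.lean`, `k = 1/3`, new `κ`) -/
def S_FLUX3 : Prop := ∀ F F1 F2 : ℂ → ℂ, Per F F1 F2 → ∀ a b : ℝ,
  ∫ τ in a..b, ∫ x in (0 : ℝ)..2 * π, flux3 F F1 x (exp (-τ)) =
    (∫ x in (0 : ℝ)..2 * π, GG3 F F1 x (exp (-a))) - ∫ x in (0 : ℝ)..2 * π, GG3 F F1 x (exp (-b))

/-- certificate (adapt `Helper33/EH/CERT.lean`).  For `v ≤ 19/20` write `Q = v Q₁`,
`Q₁ = (1 - v)² - (2 - v)/50 + 11/75 (19/40 v - v²/3)`, `s = v s₁`, `s₁ = 11/25 (19/20 - v)`,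
`D = 1 + 2.84 v + 0.5041 v²`, `β = 1 - 0.71 v`, `a² = 284/625`, `b = 102/25`; then
`T₁(v) = (b a² - v s₁ D) Q₁ - b s₁ β² ≥ 0.0065` on `[0, 19/20]` (numerically; Bernstein form), and
`T = v T₁` is the discriminant condition.  For `v ≥ 1` use `(v - 1)² (v + 1/50) ≥ b (√v - 1)²`. -/
def S_CERT3 : Prop := ∀ v q W : ℝ, 0 ≤ v → 0 ≤ q → 0 ≤ W →
  (∀ c t : ℝ, 0 ≤ c → 0 ≤ t →
    2 * t * (√(284 / 625) * √q + 2 * c * √(71 / 100) * √v - (1 + c ^ 2)) -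
      t ^ 2 * (1 + 4 * c ^ 2 + c ^ 4) ≤ W) →
  0 ≤ (v - 1) ^ 2 * (v + 1 / 50) - 1 / 50 - 102 / 25 * BB v + 102 / 25 * W + q * hh3 v -
    1 / 3 * HH3 v

/-- the polynomial inequality.  `κ = (99/50)² / (24/25) = 4.08375`, `M₀ = √(α β (1 - η)) / 2 > 1.98`,
`m₀ ^ 3 = M₀`, `lam = (99/50) / (24/25) m₀`: the right side minus `α β η / 2` equals
`2 (M - M₀)² + (4 M₀ - (α + β) + κ) M - κ m (m - m₀)²`, `M = m ^ 3`, and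
`(M - M₀)² = (m - m₀)² (m² + m m₀ + m₀²)² ≥ (m - m₀)² · 4 m M₀`. -/
def S_POLY3 : Prop := ∀ α β η : ℝ, 6 ≤ α → α ≤ β →
  (α + β - 102 / 25) ^ 2 < 4 * α * β * (1 - η) →
  ∃ lam : ℝ, 0 < lam ∧ ∃ δ : ℝ, 0 < δ ∧ ∀ m : ℝ, 0 ≤ m →
    δ + α * β * η / 2 ≤ 2 * (m ^ 3) ^ 2 - (α + β) * m ^ 3 + α * β / 2 +
      99 / 25 * lam * m ^ 2 - 24 / 25 * lam ^ 2 * m

end Pool.Agent.Helper65.E3
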