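import Pool.Agent.Helper65.E3.Key
import Pool.Agent.Helper65.EV.Dens2

set_option autoImplicit false

open MeasureTheory Metric Real Set Filter

/-!
# Order three: from scales to densities
-/

namespace Pool.Agent.Helper65.E3

open Pool.Agent.Helper65.ET (pt pt_re Dir Adm dc Fr adm_a a_sq a_nonneg
  summable_a Fr_anti Fr_nonneg per_Dir ind ind_nonneg
  ind_le_one ind_zero_or_one summable_exp tsum_ind_le)
open Pool.Agent.Helper65.EH
open Pool.Agent.Helper65.EV (abel)

set_option maxHeartbeats 1000000 in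
/-- main density statement in terms of the ordered representation function of order three -/
theorem density3 (hP3 : Parts3) (hP : EV.Parts) (hPo : S_POLY3) {C α β η : ℝ} (hC1 : 1 ≤ C)
    (hα6 : 6 ≤ α) (hαβ : α ≤ β)
    (h : (α + β - 102 / 25) ^ 2 < 4 * α * β * (1 - η)) :
    ∃ c : ℝ, 0 < c ∧ ∀ N₁ : ℕ, ∃ N₀ : ℕ, ∀ A Y X : Set ℕ, (∀ j, cp (ind A) 3 j ≤ C) →
      (∀ j, j ∉ X → j ∉ dset A 1 → cp (ind A) 3 j ≤ β) →
      (∀ j, j ∉ X → j ∉ Y → j ∉ dset A 1 → α ≤ cp (ind A) 3 j) →
      (∀ N : ℕ, N₁ ≤ N → ({j | j < N ∧ j ∈ Y}.ncard : ℝ) ≤ η * N) →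
      ∀ N : ℕ, N₀ ≤ N → c * N ≤ ({j | j < N ∧ j ∈ X}.ncard : ℝ) := by
  obtain ⟨lam, hlam, δ, hδ, hpoly⟩ := hPo α β η hα6 hαβ h
  have hα : 0 < α := by linarith
  have hα0 : 0 ≤ α := hα.le
  have hβ0 : 0 ≤ β := hα0.trans hαβ
  obtain ⟨T, hT, hwin⟩ := no_window3 hP3 hP hα0 hβ0 hC1 hlam hδ hpoly
  have hpi := Real.pi_gt_three
  have hC0 : 0 ≤ C := by linarith
  set C2 := (C + α) * (C + β) with hC2
  have hC20 : 0 < C2 := by
    have h1 : 0 < C + α := by linarith
    have h2 : 0 < C + β := by linarith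
    positivity
  -- choice of the parameters
  set W := 12 * C2 / δ + 1 with hW
  have hW0 : 1 ≤ W := by
    have : 0 ≤ 12 * C2 / δ := by positivity
    rw [hW]; linarith
  set c := δ / (16 * C2 * W * exp T) with hc
  have hc0 : 0 < c := by positivity
  -- large `N`
  have hlimW : Tendsto (fun N : ℕ => W * exp T / (N : ℝ)) atTop (nhds 0) :=
    tendsto_const_div_atTop_nhds_zero_nat _
  have hk0 : (0 : ℝ) < 1 / 3 := by norm_num
  have hlim : Tendsto (fun N : ℕ => C2 * (pw (1 / 3) (W * exp T / N) * (10 * C) ^ 2)) atTop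
      (nhds 0) := by
    have hcont : Continuous (pw (1 / 3)) := by
      unfold pw
      exact Real.continuous_rpow_const hk0.le
    have h2 := (hcont.tendsto 0).comp hlimW
    have h00 : pw (1 / 3) 0 = 0 := by unfold pw; exact Real.zero_rpow hk0.ne'
    rw [h00] at h2
    have h3 := (h2.mul_const ((10 * C) ^ 2)).const_mul C2
    simpa using h3
  have hev := hlim.eventually (gt_mem_nhds (show (0 : ℝ) < δ / 16 by positivity))
  obtain ⟨N0, hN0⟩ := exists_nat_ge (W * exp T)
  refine ⟨c, hc0, fun N₁ => ?_⟩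
  have hlim3 : Tendsto (fun N : ℕ => (α * β * (|η| + N₁)) * (W * exp T / (N : ℝ))) atTop
      (nhds 0) := by
    have h3 := hlimW.const_mul (α * β * (|η| + N₁))
    simpa using h3
  have hev3 := hlim3.eventually (gt_mem_nhds (show (0 : ℝ) < δ / 16 by positivity))
  obtain ⟨N1, hN1'⟩ := eventually_atTop.mp (hev.and hev3)
  refine ⟨max N1 (N0 + 1), fun A Y X hC hX hYX hY N hNN => ?_⟩
  obtain ⟨hN1, hN1c⟩ := hN1' N ((le_max_left _ _).trans hNN)
  have hη0 : 0 ≤ η := by
    have h1 := hY (N₁ + 1) (by omega)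
    have h2 : (0 : ℝ) ≤ ({j | j < N₁ + 1 ∧ j ∈ Y}.ncard : ℝ) := by positivity
    have h3 : (0 : ℝ) < ((N₁ + 1 : ℕ) : ℝ) := by positivity
    by_contra h4
    push Not at h4
    have h5 : η * ((N₁ + 1 : ℕ) : ℝ) < 0 := mul_neg_of_neg_of_pos h4 h3
    linarith
  have hN2 : N0 + 1 ≤ N := (le_max_right _ _).trans hNN
  have ha := ind_zero_or_one A
  obtain ⟨hR0, _, _, _⟩ := hP.pow (ind A) ha 3
  -- pointwise bound for `Ex`
  have hEx : ∀ j, Ex (cp (ind A) 3) α β j ≤ α * β * ind Y j +
      (C2 * ind X j + C2 * ind (dset A 1) j) := by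
    intro j
    have h0 := Ex_le hR0 hC hα0 hβ0 j
    have hy0 : 0 ≤ α * β * ind Y j := by
      have := ind_nonneg Y j
      positivity
    by_cases h1 : j ∈ X
    · have e : ind X j = 1 := if_pos h1
      have := ind_nonneg (dset A 1) j
      rw [e]; nlinarith
    · by_cases h2 : j ∈ dset A 1
      · have e : ind (dset A 1) j = 1 := if_pos h2
        have := ind_nonneg X j
        rw [e]; nlinarith
      · have h4 := hX j h1 h2
        have h5 := ind_nonneg X j
        have h6 := ind_nonneg (dset A 1) j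
        have h7 := hR0 j
        by_cases h3 : j ∈ Y
        · have e : ind Y j = 1 := if_pos h3
          have h8 : Ex (cp (ind A) 3) α β j ≤ α * β := by
            unfold Ex
            apply max_le (by positivity)
            nlinarith
          rw [e]
          have h9 : 0 ≤ C2 * ind X j + C2 * ind (dset A 1) j := by positivity
          linarith
        · have h3' := hYX j h1 h3 h2
          have : Ex (cp (ind A) 3) α β j = 0 := by
            unfold Ex
            apply max_eq_left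
            nlinarith
          rw [this]; positivity
  -- bound for the exceptional sum
  have hBt : ∀ y : ℝ, 0 < y → y ≤ 1 →
      y * ∑' j : ℕ, Ex (cp (ind A) 3) α β j * exp (-(2 * y * j)) ≤
      α * β * (η * (1 / 2 + y) + N₁ * y) + C2 * (y * ({j | j < N ∧ j ∈ X}.ncard : ℝ) +
        3 / 2 * exp (-(2 * y * N)) + pw (1 / 3) y * (10 * C) ^ 2) := by
    intro y hy0 hy1
    have h2y : 0 < 2 * y := by positivity
    have s1 := (summable_a (ind_zero_or_one X) h2y).mul_left C2
    have s2 := (summable_a (ind_zero_or_one (dset A 1)) h2y).mul_left C2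
    have s0 := (summable_a (ind_zero_or_one Y) h2y).mul_left (α * β)
    have h0 := abel Y hη0 hY h2y
    have h1 : ∑' j : ℕ, Ex (cp (ind A) 3) α β j * exp (-(2 * y * j)) ≤
        α * β * (∑' j : ℕ, ind Y j * exp (-(2 * y * j))) +
        (C2 * (∑' j : ℕ, ind X j * exp (-(2 * y * j))) +
          C2 * ∑' j : ℕ, ind (dset A 1) j * exp (-(2 * y * j))) := by
      rw [← tsum_mul_left, ← tsum_mul_left, ← tsum_mul_left, ← s1.tsum_add s2,
        ← s0.tsum_add (s1.add s2)]
      refine (summable_Ex hR0 hC hα0 hβ0 h2y).tsum_le_tsum (fun j => ?_)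
        (s0.add (s1.add s2))
      have h2 := exp_pos (-(2 * y * j))
      have h3 := hEx j
      nlinarith
    have h2 := tsum_ind_le X N h2y
    have h3 : ∑' j : ℕ, ind (dset A 1) j * exp (-(2 * y * j)) ≤
        Fr (ind A) (2 * y) ^ 2 := hP.dset A 1 (2 * y) h2y
    have h4 := pw_third_mul_Fr_le ha hP.pow hC hC1 hy0 (by linarith)
    have h5 : y * Fr (ind A) (2 * y) ^ 2 ≤ pw (1 / 3) y * (10 * C) ^ 2 := by
      have e : y = pw (1 / 3) y ^ 3 := (pw_third hy0.le).symm
      have h7 := pw_pos (k := 1 / 3) hy0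
      have h8 := Fr_nonneg ha (2 * y)
      calc y * Fr (ind A) (2 * y) ^ 2 =
            pw (1 / 3) y ^ 3 * Fr (ind A) (2 * y) ^ 2 := by rw [← e]
        _ = pw (1 / 3) y * (pw (1 / 3) y * Fr (ind A) (2 * y)) ^ 2 := by ring
        _ ≤ pw (1 / 3) y * (10 * C) ^ 2 := by gcongr
    calc y * ∑' j : ℕ, Ex (cp (ind A) 3) α β j * exp (-(2 * y * j))
        ≤ y * (α * β * (η * ((1 + 2 * y) / (2 * y)) + N₁) +
          (C2 * (({j | j < N ∧ j ∈ X}.ncard : ℝ) +
            exp (-(2 * y * N)) * ((1 + 2 * y) / (2 * y))) +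
              C2 * Fr (ind A) (2 * y) ^ 2)) := by
          gcongr
          refine h1.trans ?_
          gcongr
      _ = α * β * (η * (1 / 2 + y) + N₁ * y) + C2 * (y * ({j | j < N ∧ j ∈ X}.ncard : ℝ) +
            exp (-(2 * y * N)) * ((1 + 2 * y) / 2) + y * Fr (ind A) (2 * y) ^ 2) := by
          field_simp
      _ ≤ α * β * (η * (1 / 2 + y) + N₁ * y) + C2 * (y * ({j | j < N ∧ j ∈ X}.ncard : ℝ) +
            exp (-(2 * y * N)) * (3 / 2) + pw (1 / 3) y * (10 * C) ^ 2) := by
          gcongr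
          linarith
      _ = _ := by ring
  by_contra hcon
  push Not at hcon
  have hN : W * exp T < N := by
    have : (N0 : ℝ) + 1 ≤ N := by exact_mod_cast hN2
    linarith
  have hNpos : (0 : ℝ) < N := lt_trans (by positivity) hN
  -- the window
  have hu : 0 ≤ log (N / W) - T := by
    have h1 : exp T ≤ N / W := by
      rw [le_div_iff₀ (by linarith)]; nlinarith
    have h2 := Real.log_le_log (exp_pos T) h1
    rw [Real.log_exp] at h2
    linarith
  obtain ⟨τ, hτ, hτB⟩ := hwin A hC _ hu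
  unfold Bt3 at hτB
  have hτ0 : 0 ≤ τ := hu.trans hτ.1
  have hy2 : W / N ≤ exp (-τ) := by
    have h1 : τ ≤ log (N / W) := by linarith [hτ.2]
    have h2 : exp τ ≤ N / W := by
      calc exp τ ≤ exp (log (N / W)) := by gcongr
        _ = N / W := Real.exp_log (by positivity)
    rw [Real.exp_neg, le_inv_comm₀ (by positivity) (exp_pos _), inv_div]
    exact h2
  have hy3 : exp (-τ) ≤ W * exp T / N := by
    have h1 : log (N / W) - T ≤ τ := hτ.1
    have h2 : exp (log (N / W) - T) ≤ exp τ := by gcongr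
    rw [Real.exp_sub, Real.exp_log (by positivity)] at h2
    rw [Real.exp_neg, inv_le_comm₀ (exp_pos _) (by positivity), inv_div]
    refine le_trans (le_of_eq ?_) h2
    field_simp
  have hy0 : 0 < exp (-τ) := exp_pos _
  have hy1 : exp (-τ) ≤ 1 := by rw [Real.exp_le_one_iff]; linarith
  have hB := hBt _ hy0 hy1
  set y := exp (-τ) with hy
  have p1 : C2 * (y * ({j | j < N ∧ j ∈ X}.ncard : ℝ)) ≤ δ / 16 := by
    calc C2 * (y * ({j | j < N ∧ j ∈ X}.ncard : ℝ)) ≤
        C2 * ((W * exp T / N) * (c * N)) := by gcongr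
      _ = δ / 16 := by
        rw [hc]
        have : W ≠ 0 := by linarith
        field_simp
  have p2 : C2 * (3 / 2 * exp (-(2 * y * N))) ≤ δ / 16 := by
    have h1 : 2 * W ≤ 2 * y * N := by
      have := mul_le_mul_of_nonneg_right hy2 hNpos.le
      rw [div_mul_cancel₀ _ hNpos.ne'] at this
      linarith
    have h2 : exp (-(2 * y * N)) ≤ exp (-(2 * W)) := by gcongr
    have h3 : exp (-(2 * W)) ≤ 1 / (2 * W) := by
      rw [Real.exp_neg, ← one_div]
      apply one_div_le_one_div_of_le (by positivity)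
      linarith [Real.add_one_le_exp (2 * W)]
    have h4 : 12 * C2 / δ ≤ W := by rw [hW]; linarith
    rw [div_le_iff₀ hδ] at h4
    calc C2 * (3 / 2 * exp (-(2 * y * N))) ≤ C2 * (3 / 2 * (1 / (2 * W))) := by
          gcongr; exact h2.trans h3
      _ = 3 / 4 * C2 / W := by field_simp; ring
      _ ≤ δ / 16 := by
          rw [div_le_iff₀ (by linarith)]
          nlinarith
  have p3 : C2 * (pw (1 / 3) y * (10 * C) ^ 2) ≤ δ / 16 := by
    have h1 : pw (1 / 3) y ≤ pw (1 / 3) (W * exp T / N) := by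
      unfold pw
      exact Real.rpow_le_rpow hy0.le hy3 hk0.le
    calc C2 * (pw (1 / 3) y * (10 * C) ^ 2) ≤
        C2 * (pw (1 / 3) (W * exp T / N) * (10 * C) ^ 2) := by gcongr
      _ ≤ δ / 16 := hN1.le
  have p4 : α * β * (η + N₁) * y ≤ δ / 16 := by
    rw [abs_of_nonneg hη0] at hN1c
    calc α * β * (η + N₁) * y ≤ α * β * (η + N₁) * (W * exp T / N) := by gcongr
      _ ≤ δ / 16 := hN1c.le
  have h4 : α * β * (η * (1 / 2 + y) + N₁ * y) =
        α * β * η / 2 + (α * β * (η + N₁)) * y := by ring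
  rw [h4] at hB
  nlinarith

end Pool.Agent.Helper65.E3
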