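import Pool.Agent.Helper65.E3.Dens
import Pool.Agent.Helper33.EH.COMB
import Pool.Agent.Helper74.EH.CIRC
import Pool.Agent.Helper74.EH.DSET
import Pool.Agent.Helper74.EH.POW
import Pool.Agent.Helper61.EV.EV
import Pool.Agent.Helper11.E3.CERT3
import Pool.Agent.Helper11.E3.FAM3
import Pool.Agent.Helper11.E3.POLY3
import Pool.Agent.Helper79.EH.FLUX3

set_option autoImplicit false

/-!
# Order three: the density statement on finite intervals
-/

namespace Pool.Agent.Helper65.E3.Fin3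

/-- the unordered representation function of order three -/
noncomputable def rep (A : Set ℕ) (n : ℕ) : ℕ :=
  Set.ncard {f : Fin 3 → ℕ | Monotone f ∧ (∀ i, f i ∈ A) ∧ ∑ i, f i = n}

lemma rep_eq (A : Set ℕ) (n : ℕ) : rep A n = Pool.Agent.Helper65.EH.rep A 3 n := rfl

lemma le_of_sum {f : Fin 3 → ℕ} {n : ℕ} (h : ∑ i, f i = n) (i : Fin 3) : f i ≤ n := by
  rw [← h]; exact Finset.single_le_sum (fun _ _ => Nat.zero_le _) (Finset.mem_univ i)

lemma finite_rep (A : Set ℕ) (n : ℕ) :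
    {f : Fin 3 → ℕ | Monotone f ∧ (∀ i, f i ∈ A) ∧ ∑ i, f i = n}.Finite := by
  apply (Set.finite_Iic (fun _ : Fin 3 => n)).subset
  rintro f ⟨_, _, h⟩
  exact fun i => le_of_sum h i

/-- removing elements of `A` -/
lemma rep_mono {A A' : Set ℕ} (hA : A' ⊆ A) (n : ℕ) : rep A' n ≤ rep A n := by
  unfold rep
  exact Set.ncard_le_ncard (fun s hs => ⟨hs.1, fun i => hA (hs.2.1 i), hs.2.2⟩) (finite_rep A n)

lemma rep_congr {A A' : Set ℕ} (n : ℕ) (hA : ∀ a, a ≤ n → (a ∈ A' ↔ a ∈ A)) :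
    rep A' n = rep A n := by
  unfold rep
  congr 1
  ext s
  constructor
  · rintro ⟨h1, h2, h3⟩
    exact ⟨h1, fun i => (hA _ (le_of_sum h3 i)).1 (h2 i), h3⟩
  · rintro ⟨h1, h2, h3⟩
    exact ⟨h1, fun i => (hA _ (le_of_sum h3 i)).2 (h2 i), h3⟩

/-- if `3 a < N` for all `a ∈ A` then no number `n ≥ N` is a sum of three elements -/
lemma rep_zero {A : Set ℕ} {N n : ℕ} (hA : ∀ a ∈ A, a * 3 < N) (hn : N ≤ n) : rep A n = 0 := by
  unfold rep
  rw [Set.ncard_eq_zero (finite_rep A n), Set.eq_empty_iff_forall_notMem]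
  rintro s ⟨h1, h2, h3⟩
  rw [Fin.sum_univ_three] at h3
  have h4 := hA _ (h2 0)
  have h5 := hA _ (h2 1)
  have h6 := hA _ (h2 2)
  omega

lemma parts : Pool.Agent.Helper65.EV.Parts where
  pow := Pool.Agent.Helper74.EH.POW.main
  dset := Pool.Agent.Helper74.EH.DSET.main
  ener := Pool.Agent.Helper61.EV.ener
  mono := Pool.Agent.Helper61.EV.mono
  fact := Pool.Agent.Helper61.EV.fact

lemma parts3 : Pool.Agent.Helper65.E3.Parts3 where
  fam := Pool.Agent.Helper11.E3.FAM3.main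
  flux := Pool.Agent.Helper79.EH.FLUX3.main
  cert := Pool.Agent.Helper11.E3.CERT3.main
  circ := Pool.Agent.Helper74.EH.CIRC.main

theorem general1 (l K C : ℕ) (δ : ℝ) (hl : 1 ≤ l) (hlK : l ≤ K)
    (hδ : δ < 1 - ((K : ℝ) + l - 17 / 25) ^ 2 / (4 * l * K)) :
    ∃ c : ℝ, 0 < c ∧ ∀ N₁ : ℕ, ∃ N₀ : ℕ, ∀ A : Set ℕ, (∀ n, rep A n ≤ C) →
      ∀ N : ℕ, N₀ ≤ N → (∀ N' : ℕ, N₁ ≤ N' → N' ≤ N →
        (Set.ncard {n : ℕ | n < N' ∧ rep A n < l} : ℝ) ≤ δ * N') →
      c * N ≤ (Set.ncard {n : ℕ | n < N ∧ K < rep A n} : ℝ) := by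
  have hl1 : (1 : ℝ) ≤ l := by exact_mod_cast hl
  have hlK' : (l : ℝ) ≤ K := by exact_mod_cast hlK
  have hK0 : (0 : ℝ) < K := by linarith
  have hl0 : (0 : ℝ) < l := by linarith
  have hcond : (6 * (l : ℝ) + 6 * (K : ℝ) - 102 / 25) ^ 2 <
      4 * (6 * (l : ℝ)) * (6 * (K : ℝ)) * (1 - δ) := by
    have h1 : ((K : ℝ) + l - 17 / 25) ^ 2 < (1 - δ) * (4 * l * K) := by
      rw [← div_lt_iff₀ (by positivity)]
      linarith
    nlinarith
  obtain ⟨c, hc, hN⟩ := density3 parts3 parts Pool.Agent.Helper11.E3.POLY3.main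
    (C := 6 * (C : ℝ) + 1) (α := 6 * (l : ℝ)) (β := 6 * (K : ℝ)) (η := δ)
    (by have : (0 : ℝ) ≤ (C : ℝ) := by positivity
        linarith)
    (by linarith) (by linarith) hcond
  refine ⟨c, hc, fun N₁ => ?_⟩
  obtain ⟨N₀, hN₀⟩ := hN N₁
  have hfac : ((3 : ℕ).factorial : ℝ) = 6 := by norm_num [Nat.factorial]
  refine ⟨max N₀ (N₁ + 1), fun A hA N hNN hY => ?_⟩
  have hNN0 : N₀ ≤ N := (le_max_left _ _).trans hNN
  have hNN1 : N₁ + 1 ≤ N := (le_max_right _ _).trans hNN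
  have hδ0 : 0 ≤ δ := by
    have h1 := hY (N₁ + 1) (by omega) hNN1
    have h2 : (0 : ℝ) ≤ (Set.ncard {n : ℕ | n < N₁ + 1 ∧ rep A n < l} : ℝ) := by positivity
    have h3 : (0 : ℝ) < ((N₁ + 1 : ℕ) : ℝ) := by positivity
    by_contra h4
    push Not at h4
    have h5 : δ * ((N₁ + 1 : ℕ) : ℝ) < 0 := mul_neg_of_neg_of_pos h4 h3
    linarith
  set X : Set ℕ := {n | K < rep A n ∨ N ≤ n} with hX
  set Y : Set ℕ := {n | n < N ∧ rep A n < l} with hYs
  have e' : {n | n < N ∧ n ∈ X} = {n : ℕ | n < N ∧ K < rep A n} := by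
    ext n
    constructor
    · rintro ⟨h1, h2 | h2⟩
      · exact ⟨h1, h2⟩
      · omega
    · exact fun h1 => ⟨h1.1, Or.inl h1.2⟩
  rw [← e']
  refine hN₀ A Y X (fun n => ?_) (fun n hn hn2 => ?_) (fun n hnX hnY hn2 => ?_)
    (fun N' hN' => ?_) N hNN0
  · have h1 := (Pool.Agent.Helper33.EH.COMB.main A 3 n).1
    have h2 : (rep A n : ℝ) ≤ C := by exact_mod_cast hA n
    rw [← rep_eq, hfac] at h1
    linarith
  · have h1 := (Pool.Agent.Helper33.EH.COMB.main A 3 n).2 (by norm_num) hn2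
    rw [← rep_eq, hfac] at h1
    have hn3 : ¬ (K < rep A n) := fun h => hn (Or.inl h)
    push Not at hn3
    have h4 : (rep A n : ℝ) ≤ K := by exact_mod_cast hn3
    rw [h1]
    linarith
  · have h1 := (Pool.Agent.Helper33.EH.COMB.main A 3 n).2 (by norm_num) hn2
    rw [← rep_eq, hfac] at h1
    have hnN : n < N := by
      by_contra h
      exact hnX (Or.inr (not_lt.mp h))
    have hn3 : ¬ (rep A n < l) := fun h => hnY ⟨hnN, h⟩
    push Not at hn3
    have h3 : (l : ℝ) ≤ rep A n := by exact_mod_cast hn3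
    rw [h1]
    linarith
  · rcases le_total N' N with h2 | h2
    · refine le_trans ?_ (hY N' hN' h2)
      have h3 : {n : ℕ | n < N' ∧ n ∈ Y} ⊆ {n : ℕ | n < N' ∧ rep A n < l} :=
        fun n hn => ⟨hn.1, hn.2.2⟩
      exact_mod_cast Set.ncard_le_ncard h3 ((Set.finite_Iio N').subset fun n hn => hn.1)
    · have h3 : {n : ℕ | n < N' ∧ n ∈ Y} ⊆ {n : ℕ | n < N ∧ rep A n < l} :=
        fun n hn => hn.2
      have h4 : ({n : ℕ | n < N' ∧ n ∈ Y}.ncard : ℝ) ≤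
          ({n : ℕ | n < N ∧ rep A n < l}.ncard : ℝ) := by
        exact_mod_cast Set.ncard_le_ncard h3 ((Set.finite_Iio N).subset fun n hn => hn.1)
      have h5 := hY N (by omega) le_rfl
      have h6 : (N : ℝ) ≤ N' := by exact_mod_cast h2
      have h7 := mul_le_mul_of_nonneg_left h6 hδ0
      linarith

/-- The density statement of order three for finite sets of integers. -/
theorem general (l K C : ℕ) (δ : ℝ) (hl : 1 ≤ l) (hlK : l ≤ K)
    (hδ : δ < 1 - ((K : ℝ) + l - 17 / 25) ^ 2 / (4 * l * K)) :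
    ∃ c : ℝ, 0 < c ∧ ∀ N₁ : ℕ, ∃ N₀ : ℕ, ∀ (A : Set ℕ) (N : ℕ), N₀ ≤ N →
      (∀ n, n < N → rep A n ≤ C) →
      (∀ N' : ℕ, N₁ ≤ N' → N' ≤ N →
        (Set.ncard {n : ℕ | n < N' ∧ rep A n < l} : ℝ) ≤ δ * N') →
      c * N ≤ (Set.ncard {n : ℕ | n < N ∧ K < rep A n} : ℝ) := by
  obtain ⟨c, hc, h⟩ := general1 l K C δ hl hlK hδ
  refine ⟨c / 3, by positivity, fun N₁ => ?_⟩
  obtain ⟨N₀, h1⟩ := h N₁
  refine ⟨3 * (N₀ + 1), fun A N hN hA hY => ?_⟩
  set M := (N + 2) / 3 with hM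
  have hMi : ∀ n, n < M ↔ n * 3 < N := by
    intro n
    omega
  have hMN : M ≤ N := by omega
  have hM0 : N₀ ≤ M := by omega
  have hMH : (N : ℝ) ≤ M * 3 := by
    have h3 : N ≤ M * 3 := by omega
    exact_mod_cast h3
  set A' : Set ℕ := {a | a ∈ A ∧ a * 3 < N} with hA'
  have hsub : A' ⊆ A := fun a ha => ha.1
  have hcongr : ∀ n, n < M → rep A' n = rep A n := by
    intro n hn
    rw [hMi] at hn
    apply rep_congr
    intro a ha
    constructor
    · exact fun h2 => h2.1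
    · exact fun h2 => ⟨h2, by omega⟩
  have hC : ∀ n, rep A' n ≤ C := by
    intro n
    rcases lt_or_ge n N with h2 | h2
    · exact (rep_mono hsub n).trans (hA n h2)
    · rw [rep_zero (fun a ha => ha.2) h2]; exact Nat.zero_le _
  have h2 := h1 A' hC M hM0 (by
    intro N' hN' hN'2
    refine le_trans ?_ (hY N' hN' (hN'2.trans hMN))
    have h3 : {n : ℕ | n < N' ∧ rep A' n < l} ⊆ {n : ℕ | n < N' ∧ rep A n < l} := by
      rintro n ⟨h4, h5⟩
      rw [hcongr n (by omega)] at h5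
      exact ⟨h4, h5⟩
    exact_mod_cast Set.ncard_le_ncard h3 ((Set.finite_Iio N').subset fun n hn => hn.1))
  have h3 : (Set.ncard {n : ℕ | n < M ∧ K < rep A' n} : ℝ) ≤
      (Set.ncard {n : ℕ | n < N ∧ K < rep A n} : ℝ) := by
    have h4 : {n : ℕ | n < M ∧ K < rep A' n} ⊆ {n : ℕ | n < N ∧ K < rep A n} := by
      rintro n ⟨h5, h6⟩
      rw [hcongr n h5] at h6
      exact ⟨by omega, h6⟩
    exact_mod_cast Set.ncard_le_ncard h4 ((Set.finite_Iio N).subset fun n hn => hn.1)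
  refine le_trans ?_ (h2.trans h3)
  rw [div_mul_eq_mul_div, div_le_iff₀ (by norm_num), mul_assoc]
  exact mul_le_mul_of_nonneg_left hMH hc.le

end Pool.Agent.Helper65.E3.Fin3
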