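import Pool.Agent.Helper65.E3.Ana

set_option autoImplicit false

open MeasureTheory Metric Real Set

namespace Pool.Agent.Helper65.E3

open Pool.Agent.Helper65.ET (pt pt_re Per BB BB_continuous BB_le BB_nonneg cay cc Dir Adm dc Fr
  adm_a a_nonneg Dir_mul norm_F_le norm_F1_le Fr_anti Fr_nonneg per_Dir ind ind_zero_or_one
  int_lin2 int_const_le dc_mul)
open Pool.Agent.Helper65.EH
open Pool.Agent.Helper65.EV (upper1g En int_pow_vv pow_vv fact_sum)

/-- the constant of the error term -/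
noncomputable def errc3 (lam C : ℝ) : ℝ :=
  300 * C ^ 2 * lam + 160000 * C ^ 4 * lam + 2000 * C ^ 2 * lam ^ 2 + 121 * C ^ 2

lemma pw_third {y : ℝ} (hy : 0 ≤ y) : pw (1 / 3) y ^ 3 = y := by
  have := pw_pow (h := 3) (by norm_num) hy
  norm_num at this
  exact this

lemma pw_third_mul_Fr_le {a : ℕ → ℝ} (ha : ∀ n, a n = 0 ∨ a n = 1) {C : ℝ} (hPw : S_POW)
    (hC : ∀ n, cp a 3 n ≤ C) (hC1 : 1 ≤ C) {y : ℝ} (hy : 0 < y) (hy9 : y ≤ 9) :
    pw (1 / 3) y * Fr a (2 * y) ≤ 10 * C := by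
  have := pw_mul_Fr_le ha hPw hC (by norm_num) hC1 hy hy9
  norm_num at this
  exact this

set_option maxHeartbeats 1000000 in
/-- the inequality at height `y = z ^ 12` -/
lemma key3 (hP3 : Parts3) (hP : EV.Parts) {A : Set ℕ} {C : ℝ} (hC1 : 1 ≤ C)
    (hC : ∀ j, cp (ind A) 3 j ≤ C) {α β lam ν z : ℝ} (hα : 0 ≤ α) (hβ : 0 ≤ β) (hlam : 0 < lam)
    (hpoly : ∀ m : ℝ, 0 ≤ m →
      ν ≤ 2 * (m ^ 3) ^ 2 - (α + β) * m ^ 3 + α * β / 2 +
        99 / 25 * lam * m ^ 2 - 24 / 25 * lam ^ 2 * m)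
    (hz : 0 < z) (hz1 : z ≤ 1) :
    2 * π * ν ≤ lam ^ 3 * defect3 (Dir (fun n => (√lam)⁻¹ * ind A n))
        (Dir (dc (fun n => (√lam)⁻¹ * ind A n))) (z ^ 12) +
      2 * π * (z ^ 12 * ∑' j : ℕ, Ex (cp (ind A) 3) α β j * exp (-(2 * z ^ 12 * j))) +
      errc3 lam C * z := by
  have hpi := Real.pi_gt_three
  have hpi4 := Real.pi_lt_d2
  have hC0 : 0 ≤ C := by linarith
  have ha := ind_zero_or_one A
  obtain ⟨hR0, _, hFp, hDp⟩ := hP.pow (ind A) ha 3
  set κ := (√lam)⁻¹ with hκ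
  have hκ0 : 0 < κ := by positivity
  have hκ2 : κ ^ 2 = 1 / lam := by
    rw [hκ, inv_pow, Real.sq_sqrt hlam.le, one_div]
  set y := z ^ 12 with hy
  have hy0 : 0 < y := by positivity
  have hy1 : y ≤ 1 := pow_le_one₀ hz.le hz1
  set d := z ^ 10 with hd
  have hd0 : 0 < d := by positivity
  have hd1 : d ≤ 1 := pow_le_one₀ hz.le hz1
  have hyd : y = z ^ 2 * d := by rw [hy, hd]; ring
  set p := pw (1 / 3) y with hp
  have hp0 : 0 < p := pw_pos hy0
  have hpy : p ^ 3 = y := pw_third hy0.le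
  have hpz : p = z ^ 4 := by
    have h1 : p ^ 3 = (z ^ 4) ^ 3 := by rw [hpy, hy]; ring
    exact (pow_left_inj₀ hp0.le (by positivity) (by norm_num)).mp h1
  set m := p * Fr (ind A) (2 * y) with hm
  have hF0 := Fr_nonneg ha (2 * y)
  have hm0 : 0 ≤ m := by positivity
  have hmB : m ≤ 10 * C := pw_third_mul_Fr_le ha hP.pow hC hC1 hy0 (by linarith)
  have hmpow : m ^ 3 = y * ∑' j : ℕ, cp (ind A) 3 j * exp (-(2 * y * j)) := by
    rw [hm, mul_pow, hpy, hFp _ (by positivity)]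
  have hMC : m ^ 3 ≤ 3 / 2 * C := by
    have h1 := Fr_pow_le ha hP.pow hC (show 0 < 2 * y by positivity)
    rw [hm, mul_pow, hpy]
    calc y * Fr (ind A) (2 * y) ^ 3 ≤ y * (C * ((1 + 2 * y) / (2 * y))) := by gcongr
      _ = C * ((1 + 2 * y) / 2) := by field_simp
      _ ≤ _ := by nlinarith
  have h1 := local_ineq3 hP3 (per_Dir ((adm_a ha).mul κ)) hy0 hd0.le
    (by linarith) (fun x => vv_add_qq_le3 ha hP.pow hC hC1 κ hκ0.le x hz hz1)
  have j1 : ∫ x in (0 : ℝ)..2 * π, vv (1 / 3) (Dir (fun n => κ * ind A n)) x y =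
      κ ^ 2 * (2 * π * m) := by
    simp_rw [vv_scale]
    rw [intervalIntegral.integral_const_mul]
    have h2 := int_vv ha (1 / 3) 1 hy0
    simp only [one_mul, one_pow] at h2
    have h3 : (fun n => ind A n) = ind A := rfl
    rw [h3] at h2
    rw [h2, hm]; ring
  have j2 : ∫ x in (0 : ℝ)..2 * π, vv (1 / 3) (Dir (fun n => κ * ind A n)) x y ^ 2 =
      κ ^ 4 * (2 * π * (p ^ 2 * En (ind A) 2 (2 * y))) := by
    simp_rw [vv_scale, mul_pow]
    rw [intervalIntegral.integral_const_mul, int_pow_vv ha hP.pow (1 / 3) 2 hy0]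
    ring
  have j3 : ∫ x in d..2 * π - d, vv (1 / 3) (Dir (fun n => κ * ind A n)) x y ^ 3 =
      κ ^ 6 * (y * ∫ x in d..2 * π - d, ‖Dir (cp (ind A) 3) (pt x y)‖ ^ 2) := by
    rw [← mul_assoc, ← intervalIntegral.integral_const_mul]
    apply intervalIntegral.integral_congr
    intro x _
    simp only
    rw [vv_scale, mul_pow, pow_vv ha hP.pow (1 / 3) 3 x hy0, ← hp, hpy]
    ring
  rw [j1, j2, j3] at h1
  have h3 := upper1g hR0 hC hz hz1 hd0 hd1 (c := 2 * m ^ 3) (by positivity) (by linarith)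
  rw [← hyd] at h3
  have h4 := upper2 hR0 hC hα hβ hy0 (show 0 ≤ m ^ 3 by positivity) hMC hmpow.symm
  have e2 := fact_sum hP hC1 hC (n := 0) (by norm_num) (show 0 < 2 * y by positivity)
  norm_num [Nat.factorial] at e2
  have f2 : 2 * m ^ 2 - 2 * C * p * m ≤ p ^ 2 * En (ind A) 2 (2 * y) := by
    have h5 := mul_le_mul_of_nonneg_left e2 (show 0 ≤ p ^ 2 by positivity)
    have h6 : p ^ 2 * (2 * Fr (ind A) (2 * y) ^ 2) = 2 * m ^ 2 := by rw [hm]; ring
    have h7 : p ^ 2 * (En (ind A) 2 (2 * y) + 2 * C * Fr (ind A) (2 * y)) =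
        p ^ 2 * En (ind A) 2 (2 * y) + 2 * C * p * m := by rw [hm]; ring
    rw [h6, h7] at h5
    linarith
  have h5 := hpoly m hm0
  -- combine
  set E := y * ∑' j : ℕ, Ex (cp (ind A) 3) α β j * exp (-(2 * y * j)) with hE
  set I := y * ∫ x in d..2 * π - d, ‖Dir (cp (ind A) 3) (pt x y)‖ ^ 2 with hI
  set Df := defect3 (Dir (fun n => κ * ind A n)) (Dir (dc (fun n => κ * ind A n))) y with hDf
  set M := m ^ 3 with hM
  set e_2 := p ^ 2 * En (ind A) 2 (2 * y) with he2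
  have h6 : I ≤ 2 * π * ((α + β) * M - α * β / 2 - 2 * M ^ 2 + E + 9 * C ^ 2 * y) +
      64 * C ^ 2 * z := by
    refine h3.trans ?_
    gcongr
  have h7 := mul_le_mul_of_nonneg_left h1 (show 0 ≤ lam ^ 3 by positivity)
  have k4 : κ ^ 4 = 1 / lam ^ 2 := by rw [show κ ^ 4 = (κ ^ 2) ^ 2 by ring, hκ2]; field_simp
  have k6 : κ ^ 6 = 1 / lam ^ 3 := by rw [show κ ^ 6 = (κ ^ 2) ^ 3 by ring, hκ2]; field_simp
  have e7 : lam ^ 3 * (κ ^ 6 * I) = I := by rw [k6]; field_simp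
  rw [e7] at h7
  have e8 : lam ^ 3 * (99 / 50 * (κ ^ 4 * (2 * π * e_2)) - 24 / 25 * (κ ^ 2 * (2 * π * m)) - Df -
      2 * d * (2 * (200 * C ^ 2 * κ ^ 2 / z ^ 4) ^ 2 + 5 * (200 * C ^ 2 * κ ^ 2 / z ^ 4))) =
      2 * π * (99 / 50 * lam * e_2) - 2 * π * (24 / 25 * lam ^ 2 * m) - lam ^ 3 * Df -
        (160000 * C ^ 4 * lam * z ^ 2 + 2000 * C ^ 2 * lam ^ 2 * z ^ 6) := by
    rw [k4, hκ2, hd]
    field_simp
    ring
  rw [e8] at h7
  have hz4 : z ^ 4 ≤ z := by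
    calc z ^ 4 ≤ z ^ 1 := pow_le_pow_of_le_one hz.le hz1 (by norm_num)
      _ = z := pow_one z
  have hz6 : z ^ 6 ≤ z := by
    calc z ^ 6 ≤ z ^ 1 := pow_le_pow_of_le_one hz.le hz1 (by norm_num)
      _ = z := pow_one z
  have hz2 : z ^ 2 ≤ z := by nlinarith
  have hyz : y ≤ z := by
    rw [hy]
    calc z ^ 12 ≤ z ^ 1 := pow_le_pow_of_le_one hz.le hz1 (by omega)
      _ = z := pow_one z
  have r1 : 2 * π * (99 / 50 * lam * (2 * C * p * m)) ≤ 300 * C ^ 2 * lam * z := by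
    have h8 : p ≤ z := by rw [hpz]; exact hz4
    have h9 : 2 * π ≤ 7 := by linarith
    calc 2 * π * (99 / 50 * lam * (2 * C * p * m)) ≤
        7 * (99 / 50 * lam * (2 * C * z * (10 * C))) := by gcongr
      _ = 277.2 * (C ^ 2 * lam * z) := by ring
      _ ≤ 300 * (C ^ 2 * lam * z) := by gcongr; norm_num
      _ = _ := by ring
  have r2 : 160000 * C ^ 4 * lam * z ^ 2 + 2000 * C ^ 2 * lam ^ 2 * z ^ 6 ≤
      160000 * C ^ 4 * lam * z + 2000 * C ^ 2 * lam ^ 2 * z := by gcongr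
  have r3 : 2 * π * (9 * C ^ 2 * y) ≤ 57 * C ^ 2 * z := by
    have h9 : C ^ 2 * y ≤ C ^ 2 * z := by gcongr
    have h10 : 0 ≤ C ^ 2 * y := by positivity
    have h11 : 2 * π * 9 ≤ 57 := by linarith
    calc 2 * π * (9 * C ^ 2 * y) = (2 * π * 9) * (C ^ 2 * y) := by ring
      _ ≤ 57 * (C ^ 2 * z) := by gcongr
      _ = _ := by ring
  have r4 : 2 * π * (99 / 50 * lam * (2 * m ^ 2 - 2 * C * p * m)) ≤
      2 * π * (99 / 50 * lam * e_2) := by gcongr
  have h13 := mul_le_mul_of_nonneg_left h5 (show 0 ≤ 2 * π by positivity)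
  unfold errc3
  clear_value E I Df M e_2 d y
  linarith

/-- `B(τ) = e^{-τ} ∑ E_n e^{-2 e^{-τ} n}` -/
noncomputable def Bt3 (R : ℕ → ℝ) (α β : ℝ) (τ : ℝ) : ℝ :=
  exp (-τ) * ∑' j : ℕ, Ex R α β j * exp (-(2 * exp (-τ) * j))

set_option maxHeartbeats 1000000 in
/-- no long window of scales on which `B` is small -/
theorem no_window3 (hP3 : Parts3) (hP : EV.Parts) {α β C lam δ ν : ℝ} (hα : 0 ≤ α) (hβ : 0 ≤ β)
    (hC1 : 1 ≤ C) (hlam : 0 < lam) (hδ : 0 < δ)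
    (hpoly : ∀ m : ℝ, 0 ≤ m →
      δ + ν ≤ 2 * (m ^ 3) ^ 2 - (α + β) * m ^ 3 + α * β / 2 +
        99 / 25 * lam * m ^ 2 - 24 / 25 * lam ^ 2 * m) :
    ∃ T : ℝ, 0 < T ∧ ∀ A : Set ℕ,
      (∀ j, cp (ind A) 3 j ≤ C) → ∀ u : ℝ, 0 ≤ u →
        ∃ τ ∈ Icc u (u + T), δ / 2 + ν < Bt3 (cp (ind A) 3) α β τ := by
  have hpi := Real.pi_gt_three
  set κ := (√lam)⁻¹ with hκ
  have hκ0 : 0 < κ := by positivity
  set Cv := 2 * π * κ ^ 2 * (10 * C) with hCv
  set Cq := 2 * π * (16 * κ ^ 2 * (10 * C)) with hCq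
  set D := lam ^ 3 * (102 / 25 * (log 9 * Cv) + 4 * (Cv + Cq)) with hD
  set C1 := errc3 lam C with hC1'
  have hC0 : 0 ≤ C := by linarith
  have hC10 : 0 ≤ C1 := by rw [hC1']; unfold errc3; positivity
  have hlog : 0 ≤ log 9 := Real.log_nonneg (by norm_num)
  have hD0 : 0 ≤ D := by positivity
  refine ⟨(D + 12 * C1 + 1) / (π * δ), by positivity,
    fun A hC u hu => ?_⟩
  have ha := ind_zero_or_one A
  set F := Dir (fun n => κ * ind A n) with hF
  set F1 := Dir (dc (fun n => κ * ind A n)) with hF1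
  have hper := per_Dir ((adm_a ha).mul κ)
  have hv : ∀ y, 0 < y → y ≤ 9 → ∫ x in (0 : ℝ)..2 * π, vv (1 / 3) F x y ≤ Cv := by
    intro y hy hy9
    rw [hF, int_vv ha (1 / 3) κ hy]
    have h1 := pw_third_mul_Fr_le ha hP.pow hC hC1 hy hy9
    calc pw (1 / 3) y * (2 * π * (κ ^ 2 * Fr (ind A) (2 * y))) =
          2 * π * κ ^ 2 * (pw (1 / 3) y * Fr (ind A) (2 * y)) := by
          ring
      _ ≤ Cv := by rw [hCv]; gcongr
  have hq : ∀ y, 0 < y → y ≤ 1 → ∫ x in (0 : ℝ)..2 * π, qq (1 / 3) F F1 x y ≤ Cq := by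
    intro y hy hy1
    refine (int_qq_le ha (by norm_num) le_rfl κ hy).trans ?_
    have h1 := pw_third_mul_Fr_le ha hP.pow hC hC1 (show 0 < y / 2 by positivity) (by linarith)
    rw [show 2 * (y / 2) = y by ring] at h1
    have h2 : pw (1 / 3) y ≤ 2 * pw (1 / 3) (y / 2) := by
      have h3 : pw (1 / 3) y = pw (1 / 3) 2 * pw (1 / 3) (y / 2) := by
        unfold pw
        rw [← Real.mul_rpow (by norm_num) (by positivity)]; congr 1; ring
      have h4 : pw (1 / 3) 2 ≤ 2 := by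
        unfold pw
        calc (2 : ℝ) ^ (1 / 3 : ℝ) ≤ 2 ^ (1 : ℝ) :=
              Real.rpow_le_rpow_of_exponent_le (by norm_num) (by norm_num)
          _ = 2 := Real.rpow_one 2
      have h5 := pw_pos (k := 1 / 3) (show 0 < y / 2 by positivity)
      rw [h3]; gcongr
    have h5 := Fr_nonneg ha y
    calc pw (1 / 3) y * (2 * π * (8 * κ ^ 2 * Fr (ind A) y)) ≤
        (2 * pw (1 / 3) (y / 2)) * (2 * π * (8 * κ ^ 2 * Fr (ind A) y)) := by gcongr
      _ = 2 * π * (16 * κ ^ 2 * (pw (1 / 3) (y / 2) * Fr (ind A) y)) := by ring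
      _ ≤ Cq := by rw [hCq]; gcongr
  set T := (D + 12 * C1 + 1) / (π * δ) with hT
  have hT0 : 0 < T := by positivity
  by_contra hcon
  push Not at hcon
  have hcd := cont_defect3 hP3 hper
  have hpt : ∀ τ ∈ Icc u (u + T), π * δ ≤ lam ^ 3 * defect3 F F1 (exp (-τ)) +
      C1 * exp (-τ / 12) := by
    intro τ hτ
    have h1 := key3 hP3 hP hC1 hC hα hβ hlam hpoly (exp_pos (-τ / 12))
      (by rw [Real.exp_le_one_iff]; linarith [hu.trans hτ.1])
    have e : exp (-τ / 12) ^ 12 = exp (-τ) := by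
      rw [← Real.exp_nat_mul]; congr 1; push_cast; ring
    rw [e] at h1
    have h2 := hcon τ hτ
    unfold Bt3 at h2
    have h3 : 2 * π * (exp (-τ) * ∑' j : ℕ, Ex (cp (ind A) 3) α β j *
      exp (-(2 * exp (-τ) * j))) ≤ 2 * π * (δ / 2 + ν) := by gcongr
    linarith
  have hint : ∫ τ in u..u + T, (fun _ : ℝ => π * δ) τ ≤
      ∫ τ in u..u + T, (lam ^ 3 * defect3 F F1 (exp (-τ)) + C1 * exp (-τ / 12)) := by
    apply intervalIntegral.integral_mono_on (by linarith)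
      (continuous_const.intervalIntegrable _ _) _ hpt
    apply Continuous.intervalIntegrable
    fun_prop
  rw [intervalIntegral.integral_const, smul_eq_mul,
    intervalIntegral.integral_add (by apply Continuous.intervalIntegrable; fun_prop)
      (by apply Continuous.intervalIntegrable; fun_prop),
    intervalIntegral.integral_const_mul, intervalIntegral.integral_const_mul] at hint
  have h1 := integral_defect3_le hP3 hper hv hq u (u + T) hu (by linarith)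
  have h2 : ∫ τ in u..u + T, exp (-τ / 12) ≤ 12 := by
    rw [intervalIntegral.integral_eq_sub_of_hasDerivAt (f := fun τ => -12 * exp (-τ / 12))]
    · have h3 : exp (-u / 12) ≤ 1 := by rw [Real.exp_le_one_iff]; linarith
      have h4 := exp_pos (-(u + T) / 12)
      linarith
    · intro x _
      have h5 : HasDerivAt (fun τ : ℝ => -τ / 12) (-1 / 12) x := (hasDerivAt_neg x).div_const 12
      have h6 := h5.exp.const_mul (-12)
      refine h6.congr_deriv ?_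
      ring
    · apply Continuous.intervalIntegrable; fun_prop
  have h3 : lam ^ 3 * ∫ τ in u..u + T, defect3 F F1 (exp (-τ)) ≤ D := by
    rw [hD]; gcongr
  have h4 : C1 * ∫ τ in u..u + T, exp (-τ / 12) ≤ C1 * 12 := by gcongr
  have h5 : (u + T - u) * (π * δ) = D + 12 * C1 + 1 := by
    rw [hT, add_sub_cancel_left]; field_simp
  linarith

end Pool.Agent.Helper65.E3
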